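import Pool.Agent.Y603.EQ.Main

/-!
The closure of the attainable set `E_2` of first eigenvalue and torsional rigidity misses points of `E_2`
with arbitrarily large first coordinate and with second coordinate arbitrarily close to `1`.

`E_d` is the set of the points `(λ₁(Ω), (λ₁(Ω) T(Ω))⁻¹)` for `Ω ⊆ ℝ^d` open with `0 < |Ω| ≤ 1`.
-/

set_option autoImplicit false

open MeasureTheory Metric Set

namespace Pool.Agent.Results.MP_f46d6a_an.UnboundedMissingPoints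

/-- smooth functions with compact support in `Ω` which do not vanish identically -/
def TestFn {d : ℕ} (Ω : Set (EuclideanSpace ℝ (Fin d))) (u : EuclideanSpace ℝ (Fin d) → ℝ) : Prop :=
  ContDiff ℝ (⊤ : ℕ∞) u ∧ HasCompactSupport u ∧ tsupport u ⊆ Ω ∧ ∃ x, u x ≠ 0

/-- first eigenvalue of the Dirichlet Laplacian: the infimum of the Rayleigh quotients -/
noncomputable def lam {d : ℕ} (Ω : Set (EuclideanSpace ℝ (Fin d))) : ℝ :=
  sInf {r : ℝ | ∃ u, TestFn Ω u ∧ r = (∫ x, ‖gradient u x‖ ^ 2) / ∫ x, u x ^ 2}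

/-- torsional rigidity: the supremum of `(∫ u)² / ∫ |∇u|²` -/
noncomputable def tor {d : ℕ} (Ω : Set (EuclideanSpace ℝ (Fin d))) : ℝ :=
  sSup {r : ℝ | ∃ u, TestFn Ω u ∧ r = (∫ x, u x) ^ 2 / ∫ x, ‖gradient u x‖ ^ 2}

/-- the attainable set `E_d` -/
def E (d : ℕ) : Set (ℝ × ℝ) :=
  {p : ℝ × ℝ | ∃ Ω : Set (EuclideanSpace ℝ (Fin d)), IsOpen Ω ∧ 0 < volume Ω ∧ volume Ω ≤ 1 ∧
    p = (lam Ω, (lam Ω * tor Ω)⁻¹)}

/-- For all `N` and `ε > 0` there is a point `(x, y)` of the closure of `E_2` which is not in `E_2` and has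
`x > N` and `1 < y < 1 + ε`. In particular the set of the missing points is infinite and unbounded, and for no
`N` is the part `x ≥ N` of `E_2` closed. -/
theorem result :
    (∀ N ε : ℝ, 0 < ε → ∃ p ∈ closure (E 2) \ E 2, N < p.1 ∧ 1 < p.2 ∧ p.2 < 1 + ε) ∧
    (closure (E 2) \ E 2).Infinite ∧ ¬ Bornology.IsBounded (closure (E 2) \ E 2) ∧
    (∀ N : ℝ, ¬ IsClosed (E 2 ∩ {p | N ≤ p.1})) := by
  have h1 : ∀ N ε : ℝ, 0 < ε → ∃ p ∈ closure (E 2) \ E 2, N < p.1 ∧ 1 < p.2 ∧ p.2 < 1 + ε :=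
    Pool.Agent.Y603.EQ.missing_pl
  have h2 : ¬ Bornology.IsBounded (closure (E 2) \ E 2) := by
    intro hb
    obtain ⟨R, hR⟩ := hb.subset_closedBall (0 : ℝ × ℝ)
    obtain ⟨p, hp, hN, -⟩ := h1 R 1 one_pos
    have h3 := hR hp
    rw [mem_closedBall_zero_iff] at h3
    have h4 : ‖p.1‖ ≤ ‖p‖ := norm_fst_le p
    have h5 : p.1 ≤ ‖p.1‖ := Real.le_norm_self _
    linarith
  refine ⟨h1, fun hf => h2 hf.isBounded, h2, fun N hcl => ?_⟩
  obtain ⟨p, ⟨hp, hpE⟩, hN, -⟩ := h1 N 1 one_pos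
  have hopen : IsOpen {p : ℝ × ℝ | N < p.1} := isOpen_lt continuous_const continuous_fst
  have hp' : p ∈ closure (E 2 ∩ {p : ℝ × ℝ | N ≤ p.1}) := by
    rw [_root_.mem_closure_iff] at hp ⊢
    intro o ho hpo
    obtain ⟨x, hx1, hx2⟩ := hp (o ∩ {p : ℝ × ℝ | N < p.1}) (ho.inter hopen) ⟨hpo, hN⟩
    have hx3 : N < x.1 := hx1.2
    exact ⟨x, hx1.1, hx2, show N ≤ x.1 from hx3.le⟩
  rw [hcl.closure_eq] at hp'
  exact hpE hp'.1

end Pool.Agent.Results.MP_f46d6a_an.UnboundedMissingPoints
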